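import Mathlib
import Pool.Agent.Q302.HM.Defs

namespace Pool.Agent.Results.MP_b87f19_lc.NoFinitePositiveSubsets

open Pool.Agent.Q302.HM
open scoped ENNReal NNReal

/-- The gauge `f t = t ^ (1/4)` and some set `A` of reals violate the statement (*) of the
problem: `H^f(A) > 0` and every subset of `A` has measure `0` or `∞`. -/
theorem result : ∃ f : ℝ≥0 → ℝ≥0, IsGauge f ∧ (∀ t, f t = t ^ (1 / 4 : ℝ)) ∧
    ∃ A : Set ℝ, 0 < H f A ∧ ∀ A₀ ⊆ A, H f A₀ = 0 ∨ H f A₀ = ∞ := by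
  obtain ⟨A, h1, h2⟩ := main
  refine ⟨fun t => t ^ (1 / 4 : ℝ), isGauge_quarter, fun _ => rfl, A, ?_, ?_⟩
  · rw [H_quarter]
    exact pos_iff_ne_zero.2 h1
  · intro A₀ hA₀
    rw [H_quarter]
    exact h2 A₀ hA₀

end Pool.Agent.Results.MP_b87f19_lc.NoFinitePositiveSubsets
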